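import Pool.Agent.R645.SQ.Final

/-! For a finite abelian group `X`, the fundamental group of the square complex `Δ_X` is
residually finite if and only if `X` is a `2`-group. -/

set_option autoImplicit false

namespace Pool.Agent.Results.MP_4d6048_al.RFIffTwoGroup

universe u

/-- The relators `a_i b_j (a_{i-j})⁻¹ (b_{i+j})⁻¹` (the boundary paths of the squares).  The
vertical loop `a_i` is `FreeGroup.of (Sum.inl i)` and the horizontal loop `b_j` is
`FreeGroup.of (Sum.inr j)`. -/
def relators (X : Type u) [AddCommGroup X] : Set (FreeGroup (X ⊕ X)) :=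
  {r | ∃ i j : X, r = FreeGroup.of (Sum.inl i) * FreeGroup.of (Sum.inr j) *
    (FreeGroup.of (Sum.inl (i - j)))⁻¹ * (FreeGroup.of (Sum.inr (i + j)))⁻¹}

/-- The fundamental group
`π₁(Δ_X) = ⟨ a_i, b_j (i, j ∈ X) ∣ a_i b_j = b_{i+j} a_{i-j} (i, j ∈ X) ⟩`. -/
abbrev PiDelta (X : Type u) [AddCommGroup X] : Type u := PresentedGroup (relators X)

/-- For every finite abelian group `X`, the group `π₁(Δ_X)` is residually finite if and only if
the order of `X` is a power of two.  Moreover there is a finite abelian group `X` with `|X| > 2`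
for which `π₁(Δ_X)` is residually finite. -/
theorem result :
    (∀ (X : Type u) [AddCommGroup X] [Finite X],
      Group.ResiduallyFinite (PiDelta X) ↔ ∃ k : ℕ, Nat.card X = 2 ^ k) ∧
    (∃ (X : Type) (_ : AddCommGroup X) (_ : Finite X), 2 < Nat.card X ∧
      Group.ResiduallyFinite (PiDelta X)) := by
  refine ⟨fun X _ _ => Pool.Agent.R645.SQ.rf_iff X, ZMod 4, inferInstance, inferInstance, ?_, ?_⟩
  · rw [Nat.card_zmod]; norm_num
  · exact (Pool.Agent.R645.SQ.rf_iff (ZMod 4)).2 ⟨2, by rw [Nat.card_zmod]; norm_num⟩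

end Pool.Agent.Results.MP_4d6048_al.RFIffTwoGroup
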